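import Pool.Agent.N628.EB.Inner

set_option autoImplicit false

/-!
# The growth factor at comparable arguments
-/

namespace Pool.Agent.N628.EB

theorem log_ge_one {x : ℝ} (hx : 3 ≤ x) : 1 ≤ Real.log x := by
  rw [Real.le_log_iff_exp_le (by linarith)]
  have := Real.exp_one_lt_d9
  linarith

theorem log_log_three : 0 < Real.log (Real.log 3) := by
  apply Real.log_pos
  rw [Real.lt_log_iff_exp_lt (by norm_num)]
  have := Real.exp_one_lt_d9
  linarith

theorem log_log_mono {x y : ℝ} (hx : 3 ≤ x) (hxy : x ≤ y) :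
    Real.log (Real.log x) ≤ Real.log (Real.log y) := by
  have h1 := log_ge_one hx
  exact Real.log_le_log (by linarith) (Real.log_le_log (by linarith) hxy)

theorem log_log_pos {x : ℝ} (hx : 3 ≤ x) : 0 < Real.log (Real.log x) :=
  log_log_three.trans_le (log_log_mono (le_refl _) hx)

theorem RR_nonneg (d : ℕ) {x : ℝ} (hx : 3 ≤ x) : 0 ≤ RR d x := by
  unfold RR
  have h1 := log_ge_one hx
  have h2 := log_log_pos hx
  positivity

/-- comparable arguments -/
theorem RR_comp (C : ℝ) (hC : 1 ≤ C) : ∃ C' : ℝ, 1 ≤ C' ∧ ∀ (d : ℕ) (x y : ℝ), 3 ≤ x → x ≤ y →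
    y ≤ C * x → RR d x ≤ C' * RR d y := by
  set A : ℝ := 1 + Real.log (1 + Real.log C) / Real.log (Real.log 3) with hA
  have h3 := log_log_three
  have hlC : 0 ≤ Real.log C := Real.log_nonneg hC
  have hl1 : 0 ≤ Real.log (1 + Real.log C) := Real.log_nonneg (by linarith)
  have hA1 : 1 ≤ A := by
    have : 0 ≤ Real.log (1 + Real.log C) / Real.log (Real.log 3) := by positivity
    linarith
  refine ⟨A ^ (1 / 2 : ℝ), Real.one_le_rpow hA1 (by norm_num), fun d x y hx hxy hyx => ?_⟩
  have hx1 := log_ge_one hx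
  have hy1 := log_ge_one (hx.trans hxy)
  have hxl := log_log_pos hx
  have hyl := log_log_pos (hx.trans hxy)
  have h1 : Real.log y ≤ (1 + Real.log C) * Real.log x := by
    calc Real.log y ≤ Real.log (C * x) := Real.log_le_log (by linarith) hyx
      _ = Real.log C + Real.log x := Real.log_mul (by linarith) (by linarith)
      _ ≤ (1 + Real.log C) * Real.log x := by nlinarith
  have h2 : Real.log (Real.log y) ≤ A * Real.log (Real.log x) := by
    calc Real.log (Real.log y) ≤ Real.log ((1 + Real.log C) * Real.log x) :=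
          Real.log_le_log (by linarith) h1
      _ = Real.log (1 + Real.log C) + Real.log (Real.log x) :=
          Real.log_mul (by linarith) (by linarith)
      _ ≤ Real.log (1 + Real.log C) / Real.log (Real.log 3) * Real.log (Real.log x) +
            Real.log (Real.log x) := by
          have h4 := log_log_mono (le_refl _) hx
          have h5 : Real.log (1 + Real.log C) =
              Real.log (1 + Real.log C) / Real.log (Real.log 3) * Real.log (Real.log 3) := by
            field_simp
          have h6 : Real.log (1 + Real.log C) / Real.log (Real.log 3) * Real.log (Real.log 3) ≤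
              Real.log (1 + Real.log C) / Real.log (Real.log 3) * Real.log (Real.log x) :=
            mul_le_mul_of_nonneg_left h4 (by positivity)
          linarith
      _ = A * Real.log (Real.log x) := by rw [hA]; ring
  unfold RR
  have e1 : (Real.log x) ^ (1 / (2 * (d : ℝ))) ≤ (Real.log y) ^ (1 / (2 * (d : ℝ))) :=
    Real.rpow_le_rpow (by linarith) (Real.log_le_log (by linarith) hxy) (by positivity)
  have e2 : (Real.log (Real.log y)) ^ (1 / 2 : ℝ) ≤
      A ^ (1 / 2 : ℝ) * (Real.log (Real.log x)) ^ (1 / 2 : ℝ) := by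
    rw [← Real.mul_rpow (by linarith) hxl.le]
    exact Real.rpow_le_rpow hyl.le h2 (by norm_num)
  have p1 : 0 < (Real.log (Real.log x)) ^ (1 / 2 : ℝ) := Real.rpow_pos_of_pos hxl _
  have p2 : 0 < (Real.log (Real.log y)) ^ (1 / 2 : ℝ) := Real.rpow_pos_of_pos hyl _
  have p3 : 0 ≤ (Real.log y) ^ (1 / (2 * (d : ℝ))) := Real.rpow_nonneg (by linarith) _
  rw [mul_div_assoc', div_le_div_iff₀ p1 p2]
  calc (Real.log x) ^ (1 / (2 * (d : ℝ))) * (Real.log (Real.log y)) ^ (1 / 2 : ℝ)
      ≤ (Real.log y) ^ (1 / (2 * (d : ℝ))) *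
        (A ^ (1 / 2 : ℝ) * (Real.log (Real.log x)) ^ (1 / 2 : ℝ)) :=
        mul_le_mul e1 e2 p2.le p3
    _ = _ := by ring

/-- halving the logarithm -/
theorem RR_half (d : ℕ) {x y : ℝ} (hx : 3 ≤ x) (hxy : x ≤ y) (h : Real.log y ≤ 2 * Real.log x) :
    RR d y ≤ 2 ^ (1 / (2 * (d : ℝ))) * RR d x := by
  unfold RR
  have hx1 := log_ge_one hx
  have hy1 := log_ge_one (hx.trans hxy)
  have hxl := log_log_pos hx
  have hyl := log_log_pos (hx.trans hxy)
  rw [mul_div_assoc', ← Real.mul_rpow (by norm_num) (by linarith)]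
  exact div_le_div₀ (by positivity) (Real.rpow_le_rpow (by linarith) h (by positivity))
    (by positivity) (Real.rpow_le_rpow hxl.le (log_log_mono hx hxy) (by norm_num))

/-- the growth factor is small against any power -/
theorem RR_le (d : ℕ) (hd : 1 ≤ d) : ∃ C : ℝ, 0 < C ∧ ∀ x : ℝ, 3 ≤ x →
    (Real.log x) ^ (((d : ℝ) - 1) / 2) * RR d x ≤ C * x := by
  have h3 := log_log_three
  have hdR : (1 : ℝ) ≤ d := by exact_mod_cast hd
  set q : ℝ := ((d : ℝ) - 1) / 2 + 1 / (2 * (d : ℝ)) with hq
  have hq0 : 0 ≤ q := by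
    have : 0 ≤ ((d : ℝ) - 1) / 2 := by linarith
    positivity
  refine ⟨(q + 1) ^ q / (Real.log (Real.log 3)) ^ (1 / 2 : ℝ), by positivity, fun x hx => ?_⟩
  have hx1 := log_ge_one hx
  have h1 := Pool.Agent.R497.EB.log_pow_le q hq0 x (by linarith)
  unfold RR
  rw [mul_div_assoc', ← Real.rpow_add (by linarith), ← hq, div_mul_eq_mul_div]
  exact div_le_div₀ (by positivity) h1 (by positivity)
    (Real.rpow_le_rpow h3.le (log_log_mono (le_refl _) hx) (by norm_num))

theorem min_scale {C : ℝ} (hC : 1 ≤ C) {x : ENNReal} {r r' : ℝ} (h : r ≤ C * r') :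
    min x (ENNReal.ofReal r) ≤ ENNReal.ofReal C * min x (ENNReal.ofReal r') := by
  have hC1 : (1 : ENNReal) ≤ ENNReal.ofReal C := by
    rw [← ENNReal.ofReal_one]
    exact ENNReal.ofReal_le_ofReal hC
  rcases le_total x (ENNReal.ofReal r') with h1 | h1
  · rw [min_eq_left h1]
    calc min x (ENNReal.ofReal r) ≤ 1 * x := by rw [one_mul]; exact min_le_left _ _
      _ ≤ _ := mul_le_mul' hC1 (le_refl _)
  · rw [min_eq_right h1]
    refine (min_le_right _ _).trans ?_
    rw [← ENNReal.ofReal_mul (by linarith)]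
    exact ENNReal.ofReal_le_ofReal h

end Pool.Agent.N628.EB
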