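import Pool.Agent.R497.EB.Base

set_option autoImplicit false

/-!
# Mixing the coordinates of two points

The norm of the alternating sum over the corners of `(u, v]`, as a function of `(u, v)`, is at most
`2 ^ d` times the norm of the function.
-/

namespace Pool.Agent.N628.EB

open Finset MeasureTheory
open Pool.Agent.R497.EB (alt aff volume_aff)

theorem measurable_mix {d : ℕ} (t : Finset (Fin d)) :
    Measurable (fun z : (Fin d → ℝ) × (Fin d → ℝ) => t.piecewise z.2 z.1) := by
  classical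
  refine measurable_pi_iff.2 fun i => ?_
  by_cases hi : i ∈ t
  · simp only [Finset.piecewise_eq_of_mem _ _ _ hi]
    exact (measurable_pi_apply i).comp measurable_snd
  · simp only [Finset.piecewise_eq_of_notMem _ _ _ hi]
    exact (measurable_pi_apply i).comp measurable_fst

theorem measurable_alt {d : ℕ} {f : (Fin d → ℝ) → ℝ} (hf : Measurable f) :
    Measurable (fun z : (Fin d → ℝ) × (Fin d → ℝ) => alt f z.1 z.2) := by
  unfold alt
  exact Finset.measurable_fun_sum _ fun t _ => (hf.comp (measurable_mix t)).const_mul _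

theorem measurable_alt_right {d : ℕ} {f : (Fin d → ℝ) → ℝ} (hf : Measurable f) (u : Fin d → ℝ) :
    Measurable (fun v : Fin d → ℝ => alt f u v) := by
  have h := (measurable_alt hf).comp (measurable_prodMk_left (x := u) : Measurable fun v : Fin d → ℝ => (u, v))
  exact h

/-- Mixing the coordinates of two independent points preserves a product probability measure. -/
theorem mix_preserving {d : ℕ} (μ : Fin d → Measure ℝ) [∀ i, IsProbabilityMeasure (μ i)]
    (t : Finset (Fin d)) :
    MeasurePreserving (fun z : (Fin d → ℝ) × (Fin d → ℝ) => t.piecewise z.2 z.1)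
      ((Measure.pi μ).prod (Measure.pi μ)) (Measure.pi μ) := by
  classical
  have hm := measurable_mix t
  refine ⟨hm, ?_⟩
  symm
  refine Measure.pi_eq fun s hs => ?_
  rw [Measure.map_apply hm (MeasurableSet.univ_pi hs)]
  have h1 : (fun z : (Fin d → ℝ) × (Fin d → ℝ) => t.piecewise z.2 z.1) ⁻¹' (Set.univ.pi s) =
      (Set.univ.pi fun i => if i ∈ t then Set.univ else s i) ×ˢ
        (Set.univ.pi fun i => if i ∈ t then s i else Set.univ) := by
    ext z
    simp only [Set.mem_preimage, Set.mem_univ_pi, Set.mem_prod]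
    constructor
    · intro h
      refine ⟨fun i => ?_, fun i => ?_⟩
      · have := h i
        by_cases hi : i ∈ t
        · simp [hi]
        · simpa [hi] using this
      · have := h i
        by_cases hi : i ∈ t
        · simpa [hi] using this
        · simp [hi]
    · rintro ⟨ha, hb⟩ i
      by_cases hi : i ∈ t
      · have := hb i
        simpa [hi] using this
      · have := ha i
        simpa [hi] using this
  rw [h1, Measure.prod_prod, Measure.pi_pi, Measure.pi_pi, ← Finset.prod_mul_distrib]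
  refine Finset.prod_congr rfl fun i _ => ?_
  by_cases hi : i ∈ t <;> simp [hi]

/-- The norm of the alternating sum. -/
theorem eLpNorm_alt_le {d : ℕ} (μ : Fin d → Measure ℝ) [∀ i, IsProbabilityMeasure (μ i)]
    (f : (Fin d → ℝ) → ℝ) (hf : Measurable f) (p : ENNReal) (hp : 1 ≤ p) :
    eLpNorm (fun z : (Fin d → ℝ) × (Fin d → ℝ) => alt f z.1 z.2) p
      ((Measure.pi μ).prod (Measure.pi μ)) ≤ 2 ^ d * eLpNorm f p (Measure.pi μ) := by
  classical
  have h1 : (fun z : (Fin d → ℝ) × (Fin d → ℝ) => alt f z.1 z.2) =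
      ∑ t : Finset (Fin d), fun z : (Fin d → ℝ) × (Fin d → ℝ) =>
        (-1 : ℝ) ^ (tᶜ).card * f (t.piecewise z.2 z.1) := by
    funext z
    rw [Finset.sum_apply]
    rfl
  have hmt : ∀ t : Finset (Fin d), Measurable (fun z : (Fin d → ℝ) × (Fin d → ℝ) =>
      (-1 : ℝ) ^ (tᶜ).card * f (t.piecewise z.2 z.1)) := fun t =>
    (hf.comp (mix_preserving μ t).measurable).const_mul _
  rw [h1]
  refine (eLpNorm_sum_le (fun t _ => (hmt t).aestronglyMeasurable) hp).trans ?_
  have h2 : ∀ t : Finset (Fin d), eLpNorm (fun z : (Fin d → ℝ) × (Fin d → ℝ) =>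
      (-1 : ℝ) ^ (tᶜ).card * f (t.piecewise z.2 z.1)) p
      ((Measure.pi μ).prod (Measure.pi μ)) = eLpNorm f p (Measure.pi μ) := by
    intro t
    rw [← eLpNorm_comp_measurePreserving hf.aestronglyMeasurable (mix_preserving μ t)]
    refine eLpNorm_congr_norm_ae (Filter.Eventually.of_forall fun z => ?_)
    simp only [Function.comp, norm_mul, norm_pow, norm_neg, norm_one, one_pow, one_mul]
  rw [Finset.sum_congr rfl fun t _ => h2 t, Finset.sum_const, Finset.card_univ,
    Fintype.card_finset, Fintype.card_fin, nsmul_eq_mul]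
  push_cast
  exact le_refl _

/-- The normalised Lebesgue measure on an interval. -/
noncomputable def nu (a b : ℝ) : Measure ℝ := (volume (Set.Icc a b))⁻¹ • volume.restrict (Set.Icc a b)

theorem nu_prob {a b : ℝ} (h : a < b) : IsProbabilityMeasure (nu a b) := by
  constructor
  unfold nu
  rw [Measure.smul_apply, Measure.restrict_apply_univ, smul_eq_mul, Real.volume_Icc]
  exact ENNReal.inv_mul_cancel (ENNReal.ofReal_pos.2 (sub_pos.2 h)).ne' ENNReal.ofReal_ne_top

theorem nu_pi {d : ℕ} (a b : Fin d → ℝ) (hab : ∀ i, a i < b i) :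
    Measure.pi (fun i => nu (a i) (b i)) =
      (volume (Set.Icc a b))⁻¹ • volume.restrict (Set.Icc a b) := by
  classical
  have : ∀ i, IsProbabilityMeasure (nu (a i) (b i)) := fun i => nu_prob (hab i)
  refine Measure.pi_eq fun s hs => ?_
  rw [Measure.smul_apply, Measure.restrict_apply (MeasurableSet.univ_pi hs), smul_eq_mul,
    ← Set.pi_univ_Icc, ← Set.pi_inter_distrib, volume_pi_pi, volume_pi_pi,
    ENNReal.prod_inv_distrib, ← Finset.prod_mul_distrib]
  · refine Finset.prod_congr rfl fun i _ => ?_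
    unfold nu
    rw [Measure.smul_apply, Measure.restrict_apply (hs i), smul_eq_mul]
  · intro i _ j _ _
    right
    rw [Real.volume_Icc]
    exact ENNReal.ofReal_ne_top

/-- Affine images of the unit cube. -/
theorem eLpNorm_aff {d : ℕ} (u b : Fin d → ℝ) (hub : ∀ i, u i < b i) (g : (Fin d → ℝ) → ℝ)
    (hg : Measurable g) (p : ENNReal) :
    eLpNorm (fun y => g (aff u (fun i => b i - u i) y)) p
        (volume.restrict (Set.Icc (0 : Fin d → ℝ) 1)) =
      eLpNorm g p ((volume (Set.Icc u b))⁻¹ • volume.restrict (Set.Icc u b)) := by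
  classical
  set s : Fin d → ℝ := fun i => b i - u i with hs
  have hs0 : ∀ i, 0 < s i := fun i => sub_pos.2 (hub i)
  have hps : 0 < ∏ i, s i := Finset.prod_pos fun i _ => hs0 i
  have hm : Measurable (aff u s) := measurable_pi_iff.2 fun i =>
    ((measurable_pi_apply i).const_mul _).const_add _
  have hmap : Measure.map (aff u s) (volume.restrict (Set.Icc (0 : Fin d → ℝ) 1)) =
      (volume (Set.Icc u b))⁻¹ • volume.restrict (Set.Icc u b) := by
    ext A hA
    rw [Measure.map_apply hm hA, Measure.restrict_apply (hm hA), Measure.smul_apply,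
      Measure.restrict_apply hA, smul_eq_mul]
    have himg : aff u s '' (aff u s ⁻¹' A ∩ Set.Icc 0 1) = A ∩ Set.Icc u b := by
      ext x
      constructor
      · rintro ⟨y, ⟨hy1, hy2⟩, rfl⟩
        refine ⟨hy1, fun i => ?_, fun i => ?_⟩
        · have := mul_nonneg (hs0 i).le (hy2.1 i)
          simp only [aff]
          linarith
        · have := mul_le_mul_of_nonneg_left (hy2.2 i) (hs0 i).le
          simp only [aff, Pi.one_apply, mul_one, hs] at this ⊢
          linarith
      · rintro ⟨hx1, hx2⟩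
        have hxe : aff u s (fun i => (x i - u i) / s i) = x := by
          funext i
          simp only [aff]
          rw [mul_div_cancel₀ _ (hs0 i).ne']
          ring
        refine ⟨fun i => (x i - u i) / s i, ⟨?_, fun i => ?_, fun i => ?_⟩, hxe⟩
        · show aff u s _ ∈ A
          rw [hxe]
          exact hx1
        · exact div_nonneg (sub_nonneg.2 (hx2.1 i)) (hs0 i).le
        · show (x i - u i) / s i ≤ 1
          rw [div_le_one (hs0 i)]
          have := hx2.2 i
          simp only [hs]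
          linarith
    have hv := volume_aff u s hs0 (aff u s ⁻¹' A ∩ Set.Icc 0 1)
    rw [himg] at hv
    rw [hv, Real.volume_Icc_pi, ← ENNReal.ofReal_prod_of_nonneg fun i _ => (hs0 i).le, ← mul_assoc,
      ENNReal.inv_mul_cancel (ENNReal.ofReal_pos.2 hps).ne' ENNReal.ofReal_ne_top, one_mul]
  rw [← hmap, eLpNorm_map_measure hg.aestronglyMeasurable hm.aemeasurable]
  rfl

theorem nu_restrict {d : ℕ} {a b u : Fin d → ℝ} (hab : ∀ i, a i < b i) (hu : ∀ i, a i ≤ u i)
    (hub : ∀ i, u i < b i) :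
    (Measure.pi (fun i => nu (a i) (b i))).restrict (Set.Icc u b) =
      (volume (Set.Icc u b) / volume (Set.Icc a b)) •
        ((volume (Set.Icc u b))⁻¹ • volume.restrict (Set.Icc u b)) := by
  have hsub : Set.Icc u b ⊆ Set.Icc a b := Set.Icc_subset_Icc hu (le_refl _)
  have h0 : volume (Set.Icc u b) ≠ 0 := by
    rw [Real.volume_Icc_pi]
    exact Finset.prod_ne_zero_iff.2 fun i _ => (ENNReal.ofReal_pos.2 (sub_pos.2 (hub i))).ne'
  have h1 : volume (Set.Icc u b) ≠ ⊤ := by
    rw [Real.volume_Icc_pi]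
    exact ENNReal.prod_ne_top fun i _ => ENNReal.ofReal_ne_top
  rw [nu_pi a b hab, Measure.restrict_smul, Measure.restrict_restrict measurableSet_Icc,
    Set.inter_eq_left.2 hsub, smul_smul]
  congr 1
  rw [div_eq_mul_inv, mul_comm (volume (Set.Icc u b)), mul_assoc, ENNReal.mul_inv_cancel h0 h1,
    mul_one]

theorem vol_ratio {d : ℕ} {a b u : Fin d → ℝ} (hab : ∀ i, a i < b i)
    (hu : ∀ i, u i ≤ (a i + b i) / 2) :
    (2 ^ d : ENNReal)⁻¹ ≤ volume (Set.Icc u b) / volume (Set.Icc a b) := by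
  rw [Real.volume_Icc_pi, Real.volume_Icc_pi,
    ← ENNReal.ofReal_prod_of_nonneg fun i _ => by linarith [hab i, hu i],
    ← ENNReal.ofReal_prod_of_nonneg fun i _ => by linarith [hab i]]
  have h2 : 0 < ∏ i, (b i - a i) := Finset.prod_pos fun i _ => sub_pos.2 (hab i)
  rw [← ENNReal.ofReal_div_of_pos h2]
  have h3 : (2 ^ d : ENNReal)⁻¹ = ENNReal.ofReal ((2 ^ d)⁻¹) := by
    rw [ENNReal.ofReal_inv_of_pos (by positivity)]
    congr 1
    rw [ENNReal.ofReal_pow (by norm_num)]
    norm_num
  rw [h3]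
  apply ENNReal.ofReal_le_ofReal
  rw [le_div_iff₀ h2]
  calc ((2 : ℝ) ^ d)⁻¹ * ∏ i, (b i - a i) = ∏ i, ((b i - a i) / 2) := by
        rw [Finset.prod_div_distrib, Finset.prod_const, Finset.card_univ, Fintype.card_fin]
        ring
    _ ≤ ∏ i, (b i - u i) := Finset.prod_le_prod (fun i _ => by linarith [hab i]) fun i _ => by
        linarith [hu i]

theorem pi_half {d : ℕ} {a b : Fin d → ℝ} (hab : ∀ i, a i < b i) :
    Measure.pi (fun i => nu (a i) (b i)) (Set.Icc a fun i => (a i + b i) / 2) =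
      (2 ^ d : ENNReal)⁻¹ := by
  have : ∀ i, IsProbabilityMeasure (nu (a i) (b i)) := fun i => nu_prob (hab i)
  rw [← Set.pi_univ_Icc, Measure.pi_pi]
  have h : ∀ i, nu (a i) (b i) (Set.Icc (a i) ((a i + b i) / 2)) = 2⁻¹ := by
    intro i
    have hi := sub_pos.2 (hab i)
    unfold nu
    rw [Measure.smul_apply, Measure.restrict_apply measurableSet_Icc, smul_eq_mul,
      Set.inter_eq_left.2 (Set.Icc_subset_Icc (le_refl _) (by linarith)), Real.volume_Icc,
      Real.volume_Icc, show (a i + b i) / 2 - a i = (b i - a i) * 2⁻¹ by ring,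
      ENNReal.ofReal_mul hi.le, ← mul_assoc, ENNReal.inv_mul_cancel (ENNReal.ofReal_pos.2 hi).ne'
        ENNReal.ofReal_ne_top, one_mul, ENNReal.ofReal_inv_of_pos (by norm_num)]
    norm_num
  simp only [h]
  rw [Finset.prod_const, Finset.card_univ, Fintype.card_fin, ENNReal.inv_pow]

/-- From the boxes `[u, b]` to the box `[a, b]`. -/
theorem assembly {d : ℕ} (a b : Fin d → ℝ) (hab : ∀ i, a i < b i) (f : (Fin d → ℝ) → ℝ)
    (hf : Measurable f) (p : ENNReal) (hp : 1 ≤ p) (hp' : p ≠ ⊤) (A : ENNReal)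
    (hA : ∀ u ∈ Set.Icc a (fun i => (a i + b i) / 2), A ≤ eLpNorm (fun v => alt f u v) p
      ((volume (Set.Icc u b))⁻¹ • volume.restrict (Set.Icc u b))) :
    A ≤ 8 ^ d * eLpNorm f p ((volume (Set.Icc a b))⁻¹ • volume.restrict (Set.Icc a b)) := by
  have : ∀ i, IsProbabilityMeasure (nu (a i) (b i)) := fun i => nu_prob (hab i)
  have hp0 : p ≠ 0 := (lt_of_lt_of_le one_pos hp).ne'
  set q : ℝ := p.toReal with hq
  have hq1 : 1 ≤ q := by
    rw [hq, ← ENNReal.toReal_one]
    exact ENNReal.toReal_mono hp' hp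
  have hq0 : 0 < q := by linarith
  set π : Measure (Fin d → ℝ) := Measure.pi (fun i => nu (a i) (b i)) with hπ
  rw [← nu_pi a b hab, ← hπ]
  have h1 := eLpNorm_alt_le (fun i => nu (a i) (b i)) f hf p hp
  rw [← hπ] at h1
  have hin : ∀ u ∈ Set.Icc a (fun i => (a i + b i) / 2),
      (2 ^ d : ENNReal)⁻¹ * A ^ q ≤ ∫⁻ v, ‖alt f u v‖ₑ ^ q ∂π := by
    intro u hu
    have hub : ∀ i, u i < b i := fun i => by
      have := hu.2 i
      have := hab i
      simp only at *
      linarith
    calc (2 ^ d : ENNReal)⁻¹ * A ^ q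
        ≤ (volume (Set.Icc u b) / volume (Set.Icc a b)) *
          ∫⁻ v, ‖alt f u v‖ₑ ^ q ∂((volume (Set.Icc u b))⁻¹ • volume.restrict (Set.Icc u b)) := by
          refine mul_le_mul' (vol_ratio hab fun i => hu.2 i) ?_
          have h2 := hA u hu
          rw [eLpNorm_eq_lintegral_rpow_enorm_toReal hp0 hp', ← hq] at h2
          calc A ^ q ≤ ((∫⁻ v, ‖alt f u v‖ₑ ^ q
                ∂((volume (Set.Icc u b))⁻¹ • volume.restrict (Set.Icc u b))) ^ (1 / q)) ^ q :=
                ENNReal.rpow_le_rpow h2 hq0.le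
            _ = _ := by
                rw [← ENNReal.rpow_mul, one_div_mul_cancel hq0.ne', ENNReal.rpow_one]
      _ = ∫⁻ v in Set.Icc u b, ‖alt f u v‖ₑ ^ q ∂π := by
          rw [hπ, nu_restrict hab (fun i => hu.1 i) hub]
          exact (lintegral_smul_measure (volume (Set.Icc u b) / volume (Set.Icc a b))
            (fun v => ‖alt f u v‖ₑ ^ q)).symm
      _ ≤ _ := setLIntegral_le_lintegral _ _
  have hout : (4 ^ d : ENNReal)⁻¹ * A ^ q ≤ ∫⁻ z, ‖alt f z.1 z.2‖ₑ ^ q ∂(π.prod π) := by
    rw [lintegral_prod _ ((measurable_alt hf).enorm.pow_const q).aemeasurable]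
    calc (4 ^ d : ENNReal)⁻¹ * A ^ q
        = ((2 ^ d : ENNReal)⁻¹ * A ^ q) * π (Set.Icc a fun i => (a i + b i) / 2) := by
          rw [hπ, pi_half hab, show (4 : ENNReal) = 2 * 2 by norm_num, mul_pow,
            ENNReal.mul_inv (Or.inl (by positivity)) (Or.inl (by
              exact ENNReal.pow_ne_top (by norm_num)))]
          ring
      _ = ∫⁻ _ in Set.Icc a (fun i => (a i + b i) / 2), ((2 ^ d : ENNReal)⁻¹ * A ^ q) ∂π := by
          rw [setLIntegral_const]
      _ ≤ ∫⁻ u in Set.Icc a (fun i => (a i + b i) / 2), ∫⁻ v, ‖alt f u v‖ₑ ^ q ∂π ∂π :=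
          setLIntegral_mono' measurableSet_Icc hin
      _ ≤ _ := setLIntegral_le_lintegral _ _
  have h4 : (4 ^ d : ENNReal)⁻¹ * A ≤
      eLpNorm (fun z : (Fin d → ℝ) × (Fin d → ℝ) => alt f z.1 z.2) p (π.prod π) := by
    rw [eLpNorm_eq_lintegral_rpow_enorm_toReal hp0 hp', ← hq]
    calc (4 ^ d : ENNReal)⁻¹ * A ≤ ((4 ^ d : ENNReal)⁻¹) ^ (1 / q) * A := by
          gcongr
          have h5 : (4 ^ d : ENNReal)⁻¹ ≤ 1 := by
            rw [ENNReal.inv_le_one]
            exact one_le_pow₀ (by norm_num)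
          calc (4 ^ d : ENNReal)⁻¹ = ((4 ^ d : ENNReal)⁻¹) ^ (1 : ℝ) := (ENNReal.rpow_one _).symm
            _ ≤ ((4 ^ d : ENNReal)⁻¹) ^ (1 / q) :=
                ENNReal.rpow_le_rpow_of_exponent_ge h5 (by
                  rw [div_le_one hq0]
                  exact hq1)
      _ = ((4 ^ d : ENNReal)⁻¹ * A ^ q) ^ (1 / q) := by
          rw [ENNReal.mul_rpow_of_nonneg _ _ (by positivity), ← ENNReal.rpow_mul,
            mul_one_div_cancel hq0.ne', ENNReal.rpow_one]
      _ ≤ _ := ENNReal.rpow_le_rpow hout (by positivity)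
  have h5 := h4.trans h1
  have h40 : (4 ^ d : ENNReal) ≠ 0 := by positivity
  have h4t : (4 ^ d : ENNReal) ≠ ⊤ := ENNReal.pow_ne_top (by norm_num)
  calc A = 4 ^ d * ((4 ^ d : ENNReal)⁻¹ * A) := by
        rw [← mul_assoc, ENNReal.mul_inv_cancel h40 h4t, one_mul]
    _ ≤ 4 ^ d * (2 ^ d * eLpNorm f p π) := by gcongr
    _ = 8 ^ d * eLpNorm f p π := by
        rw [← mul_assoc, ← mul_pow]
        norm_num

end Pool.Agent.N628.EB
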