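import Pool.Agent.N628.EB.Grow

set_option autoImplicit false

/-!
# Boxes with few points, arbitrary weights, all exponents
-/

namespace Pool.Agent.N628.EB

open Finset MeasureTheory
open Pool.Agent.R497.EB (alt aff)

/-- the normalised Lebesgue measure on the box `[a, b]` -/
noncomputable def mu {d : ℕ} (a b : Fin d → ℝ) : Measure (Fin d → ℝ) :=
  (volume (Set.Icc a b))⁻¹ • volume.restrict (Set.Icc a b)

theorem mu_prob {d : ℕ} {a b : Fin d → ℝ} (hab : ∀ i, a i < b i) : IsProbabilityMeasure (mu a b) := by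
  have : ∀ i, IsProbabilityMeasure (nu (a i) (b i)) := fun i => nu_prob (hab i)
  unfold mu
  rw [← nu_pi a b hab]
  infer_instance

theorem num_mono {N d : ℕ} (P : Fin N → Fin d → ℝ) {u u' v v' : Fin d → ℝ} (h1 : ∀ i, u i ≤ u' i)
    (h2 : ∀ i, v' i ≤ v i) : num P u' v' ≤ num P u v := by
  classical
  unfold num
  rw [Nat.card_eq_fintype_card, Nat.card_eq_fintype_card, Fintype.card_subtype,
    Fintype.card_subtype]
  refine Finset.card_le_card fun j hj => ?_
  rw [Finset.mem_filter] at hj ⊢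
  exact ⟨hj.1, fun i => ⟨(h1 i).trans_lt (hj.2 i).1, (hj.2 i).2.trans (h2 i)⟩⟩

/-- finite exponents -/
theorem wbox_fin (d : ℕ) (hd : 3 ≤ d) (K : ℝ) : ∃ c : ℝ, 0 < c ∧ ∀ M : ℝ, 0 < M → ∀ (N : ℕ)
    (w : Fin N → ℝ) (P : Fin N → Fin d → ℝ) (a b : Fin d → ℝ), (∀ i, a i < b i) →
    3 ≤ M * ∏ i, (b i - a i) → (num P a b : ℝ) ≤ K * (M * ∏ i, (b i - a i)) →
    ∀ h : Fin d → (Fin d → ℝ) → ℝ, (∀ k, Measurable (h k)) →
    (∀ (k : Fin d) (x : Fin d → ℝ) (t : ℝ), h k (Function.update x k t) = h k x) →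
    ∀ p : ENNReal, 1 ≤ p → p ≠ ⊤ →
      ENNReal.ofReal (c * (Real.log (M * ∏ i, (b i - a i))) ^ (((d : ℝ) - 1) / 2) / M) *
        min (p ^ (1 / 2 : ℝ)) (ENNReal.ofReal (RR d (M * ∏ i, (b i - a i)))) ≤
      eLpNorm (D w P h) p (mu a b) := by
  obtain ⟨c₀, hc₀, H⟩ := inner d hd
  obtain ⟨K', hK'⟩ : ∃ K' : ℝ, K' = max K 1 := ⟨_, rfl⟩
  have hK1 : 1 ≤ K' := hK' ▸ le_max_right _ _
  have hKK : K ≤ K' := hK' ▸ le_max_left _ _
  obtain ⟨C₁, hC₁, hR⟩ := RR_comp (2 * K') (by linarith)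
  refine ⟨c₀ / (16 ^ d * (2 * K') * C₁), by positivity,
    fun M hM N w P a b hab hV hnum h hhm hhi p hp hp' => ?_⟩
  obtain ⟨q, hq⟩ : ∃ q : ℝ, q = ∏ i, (b i - a i) := ⟨_, rfl⟩
  have hq0 : 0 < q := hq ▸ Finset.prod_pos fun i _ => sub_pos.2 (hab i)
  rw [← hq] at hV hnum ⊢
  obtain ⟨V, hVd⟩ : ∃ V : ℝ, V = M * q := ⟨_, rfl⟩
  rw [← hVd] at hV hnum ⊢
  obtain ⟨e, he⟩ : ∃ e : ℝ, e = ((d : ℝ) - 1) / 2 := ⟨_, rfl⟩
  have he0 : 0 ≤ e := by
    have : (3 : ℝ) ≤ d := by exact_mod_cast hd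
    rw [he]
    linarith
  rw [← he]
  rw [← he] at H
  have hV0 : 0 < V := by linarith
  obtain ⟨m, hm⟩ : ∃ m : ℕ, m = ⌈K' * V⌉₊ := ⟨_, rfl⟩
  have hKV : V ≤ K' * V := by nlinarith
  have hm1 : K' * V ≤ m := hm ▸ Nat.le_ceil _
  have hm2 : (m : ℝ) ≤ 2 * K' * V := by
    have : (m : ℝ) < K' * V + 1 := hm ▸ Nat.ceil_lt_add_one (by positivity)
    linarith
  have hm3 : 3 ≤ m := by
    have : (3 : ℝ) ≤ m := by linarith
    exact_mod_cast this
  have hm0 : (0 : ℝ) < m := by linarith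
  have hlogV := log_ge_one hV
  have hA : ∀ u ∈ Set.Icc a (fun i => (a i + b i) / 2),
      ENNReal.ofReal (q / 2 ^ d) * (ENNReal.ofReal (c₀ * (Real.log m) ^ e / m) *
          min (p ^ (1 / 2 : ℝ)) (ENNReal.ofReal (RR d m))) ≤
        eLpNorm (fun v => alt (D w P h) u v) p
        ((volume (Set.Icc u b))⁻¹ • volume.restrict (Set.Icc u b)) := by
    intro u hu
    have hub : ∀ i, u i < b i := fun i => by
      have := hu.2 i
      have := hab i
      simp only at *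
      linarith
    have hn : num P u b ≤ m := by
      have h1 : (num P u b : ℝ) ≤ num P a b := by
        exact_mod_cast num_mono P (fun i => hu.1 i) fun i => le_refl _
      have h2 : K * V ≤ K' * V := by nlinarith
      have h3 : (num P u b : ℝ) ≤ m := by linarith
      exact_mod_cast h3
    refine le_trans ?_ (H N w P h hhm hhi u b hub m hm3 hn p hp)
    refine mul_le_mul' (ENNReal.ofReal_le_ofReal ?_) (le_refl _)
    calc q / 2 ^ d = ∏ i, ((b i - a i) / 2) := by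
          rw [Finset.prod_div_distrib, Finset.prod_const, Finset.card_univ, Fintype.card_fin, hq]
      _ ≤ ∏ i, (b i - u i) := Finset.prod_le_prod (fun i _ => by linarith [hab i]) fun i _ => by
          have := hu.2 i
          simp only at this
          linarith
  have h1 := assembly a b hab (D w P h) (measurable_D w P h hhm) p hp hp' _ hA
  have h8 : (8 ^ d : ENNReal) ≠ 0 := by positivity
  have h8t : (8 ^ d : ENNReal) ≠ ⊤ := ENNReal.pow_ne_top (by norm_num)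
  have h8e : (8 ^ d : ENNReal) = ENNReal.ofReal (8 ^ d) := by
    rw [ENNReal.ofReal_pow (by norm_num)]
    norm_num
  have h2 : ENNReal.ofReal (8 ^ d) *
      (ENNReal.ofReal (c₀ / (16 ^ d * (2 * K') * C₁) * (Real.log V) ^ e / M) *
        min (p ^ (1 / 2 : ℝ)) (ENNReal.ofReal (RR d V))) ≤
      ENNReal.ofReal (q / 2 ^ d) * (ENNReal.ofReal (c₀ * (Real.log m) ^ e / m) *
          min (p ^ (1 / 2 : ℝ)) (ENNReal.ofReal (RR d m))) := by
    have h3 := min_scale hC₁ (x := p ^ (1 / 2 : ℝ)) (hR d V m hV (by linarith) hm2)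
    calc ENNReal.ofReal (8 ^ d) *
          (ENNReal.ofReal (c₀ / (16 ^ d * (2 * K') * C₁) * (Real.log V) ^ e / M) *
          min (p ^ (1 / 2 : ℝ)) (ENNReal.ofReal (RR d V)))
        ≤ ENNReal.ofReal (8 ^ d) *
          (ENNReal.ofReal (c₀ / (16 ^ d * (2 * K') * C₁) * (Real.log V) ^ e / M) *
          (ENNReal.ofReal C₁ * min (p ^ (1 / 2 : ℝ)) (ENNReal.ofReal (RR d m)))) := by gcongr
      _ = (ENNReal.ofReal (8 ^ d) *
          ENNReal.ofReal (c₀ / (16 ^ d * (2 * K') * C₁) * (Real.log V) ^ e / M) *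
          ENNReal.ofReal C₁) * min (p ^ (1 / 2 : ℝ)) (ENNReal.ofReal (RR d m)) := by ring
      _ ≤ (ENNReal.ofReal (q / 2 ^ d) * ENNReal.ofReal (c₀ * (Real.log m) ^ e / m)) *
          min (p ^ (1 / 2 : ℝ)) (ENNReal.ofReal (RR d m)) := by
          refine mul_le_mul' ?_ (le_refl _)
          rw [← ENNReal.ofReal_mul (by positivity), ← ENNReal.ofReal_mul (by positivity),
            ← ENNReal.ofReal_mul (by positivity)]
          apply ENNReal.ofReal_le_ofReal
          have h4 : (Real.log V) ^ e ≤ (Real.log m) ^ e :=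
            Real.rpow_le_rpow (by linarith) (Real.log_le_log hV0 (by linarith)) he0
          have h16 : (16 : ℝ) ^ d = 8 ^ d * 2 ^ d := by rw [← mul_pow]; norm_num
          calc 8 ^ d * (c₀ / (16 ^ d * (2 * K') * C₁) * (Real.log V) ^ e / M) * C₁
              = c₀ * (Real.log V) ^ e / (2 ^ d * (2 * K' * M)) := by
                rw [h16]
                field_simp
            _ ≤ c₀ * (Real.log m) ^ e / (2 ^ d * (2 * K' * M)) := by gcongr
            _ = c₀ * (Real.log m) ^ e / 2 ^ d * (1 / (2 * K' * M)) := by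
                field_simp
            _ ≤ c₀ * (Real.log m) ^ e / 2 ^ d * (q / m) := by
                have hlm : 0 ≤ (Real.log m) ^ e :=
                  Real.rpow_nonneg (Real.log_nonneg (by linarith)) _
                refine mul_le_mul_of_nonneg_left ?_ (by positivity)
                rw [div_le_div_iff₀ (by positivity) hm0]
                rw [hVd] at hm2
                linarith
            _ = _ := by field_simp
      _ = _ := by ring
  have h3 := h2.trans h1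
  rw [h8e] at h3 h8 h8t
  exact (ENNReal.mul_le_mul_iff_right h8 h8t).1 h3

/-- all exponents -/
theorem wbox (d : ℕ) (hd : 3 ≤ d) (K : ℝ) : ∃ c : ℝ, 0 < c ∧ ∀ M : ℝ, 0 < M → ∀ (N : ℕ)
    (w : Fin N → ℝ) (P : Fin N → Fin d → ℝ) (a b : Fin d → ℝ), (∀ i, a i < b i) →
    3 ≤ M * ∏ i, (b i - a i) → (num P a b : ℝ) ≤ K * (M * ∏ i, (b i - a i)) →
    ∀ h : Fin d → (Fin d → ℝ) → ℝ, (∀ k, Measurable (h k)) →
    (∀ (k : Fin d) (x : Fin d → ℝ) (t : ℝ), h k (Function.update x k t) = h k x) →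
    ∀ p : ENNReal, 1 ≤ p →
      ENNReal.ofReal (c * (Real.log (M * ∏ i, (b i - a i))) ^ (((d : ℝ) - 1) / 2) / M) *
        min (p ^ (1 / 2 : ℝ)) (ENNReal.ofReal (RR d (M * ∏ i, (b i - a i)))) ≤
      eLpNorm (D w P h) p (mu a b) := by
  obtain ⟨c, hc, H⟩ := wbox_fin d hd K
  refine ⟨c, hc, fun M hM N w P a b hab hV hnum h hhm hhi p hp => ?_⟩
  by_cases hp' : p = ⊤
  swap
  · exact H M hM N w P a b hab hV hnum h hhm hhi p hp hp'
  subst hp'
  have hprob := mu_prob hab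
  obtain ⟨r, hr⟩ : ∃ r : ℝ, r = RR d (M * ∏ i, (b i - a i)) := ⟨_, rfl⟩
  have hr0 : 0 ≤ r := hr ▸ RR_nonneg d hV
  obtain ⟨t, ht⟩ : ∃ t : ℝ, t = max 1 (r ^ 2) := ⟨_, rfl⟩
  have ht1 : 1 ≤ t := ht ▸ le_max_left _ _
  have htr : r ^ 2 ≤ t := ht ▸ le_max_right _ _
  have h1 := H M hM N w P a b hab hV hnum h hhm hhi (ENNReal.ofReal t) (by
    rw [← ENNReal.ofReal_one]
    exact ENNReal.ofReal_le_ofReal ht1) ENNReal.ofReal_ne_top
  rw [← hr] at h1 ⊢
  have h2 : ENNReal.ofReal r ≤ ENNReal.ofReal t ^ (1 / 2 : ℝ) := by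
    rw [ENNReal.ofReal_rpow_of_nonneg (by linarith) (by norm_num), ← Real.sqrt_eq_rpow]
    exact ENNReal.ofReal_le_ofReal (Real.le_sqrt_of_sq_le htr)
  rw [min_eq_right h2] at h1
  refine (mul_le_mul' (le_refl _) (min_le_right _ _)).trans (h1.trans ?_)
  exact eLpNorm_le_eLpNorm_of_exponent_le le_top
    (measurable_D w P h hhm).aestronglyMeasurable

end Pool.Agent.N628.EB
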